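import Pool.Agent.Work.MP_f96e05_an.NR.Iff

set_option autoImplicit false

namespace Pool.Agent.Results.MP_f96e05_an.ClosedForm

open Pool.Agent.Work.MP_f96e05_an Pool.Agent.Work.MP_f96e05_an.NR

/-- Let `φ` be inner with boundary fixed point `ω` of angular derivative `α < 1`, and not an
automorphism whose second fixed point `ω'` has `2 < |ω - ω'|² < 2 (1 + α)`. The numerical radius
of `C_φ` on `H²` equals `1 / √α` exactly when `φ` is an automorphism with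
`|ω - ω'|² ≥ 2 (1 + α)`. -/
theorem result (φ : ℂ → ℂ) (hφ : IsInnerFn φ) (ω : ℂ) (hω : ‖ω‖ = 1) (α : ℝ) (hα : α < 1)
    (hder : Filter.Tendsto (fun r : ℝ => (φ ((r : ℂ) * ω) - ω) / ((r : ℂ) * ω - ω))
      (nhdsWithin 1 (Set.Iio 1)) (nhds (α : ℂ)))
    (hgap : ∀ l a ω' : ℂ, ‖l‖ = 1 → ‖a‖ < 1 →
      (∀ z : ℂ, ‖z‖ < 1 → φ z = l * (z - a) / (1 - (starRingEnd ℂ) a * z)) →
      ‖ω'‖ = 1 → ω' ≠ ω → l * (ω' - a) / (1 - (starRingEnd ℂ) a * ω') = ω' →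
      ‖ω - ω'‖ ^ 2 ≤ 2 ∨ 2 * (1 + α) ≤ ‖ω - ω'‖ ^ 2) :
    sSup (norm '' numRange φ) = 1 / Real.sqrt α ↔ ∃ l a ω' : ℂ, ‖l‖ = 1 ∧ ‖a‖ < 1 ∧
      (∀ z : ℂ, ‖z‖ < 1 → φ z = l * (z - a) / (1 - (starRingEnd ℂ) a * z)) ∧
      ‖ω'‖ = 1 ∧ ω' ≠ ω ∧ l * (ω' - a) / (1 - (starRingEnd ℂ) a * ω') = ω' ∧
      2 * (1 + α) ≤ ‖ω - ω'‖ ^ 2 :=
  closed_iff hφ hω hα hder hgap

end Pool.Agent.Results.MP_f96e05_an.ClosedForm
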